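import Mathlib

namespace Pool.Agent.Results.MP_5a5b3b_co.Yes

open Set

abbrev E := EuclideanSpace ℝ (Fin 2)

/-- A countable family of closed sets that covers the plane, with pairwise disjoint interiors. -/
def Tiling (T : Set (Set E)) : Prop :=
  T.Countable ∧ (∀ A ∈ T, IsClosed A) ∧ ⋃₀ T = univ ∧
    T.Pairwise fun A B => Disjoint (interior A) (interior B)

/-- The isometries that permute the tiles act transitively on the tiles. -/
def Isohedral (T : Set (Set E)) : Prop :=
  Tiling T ∧ ∀ A ∈ T, ∀ B ∈ T, ∃ f : E ≃ᵢ E, f '' A = B ∧ (fun C => f '' C) '' T = T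

def Congruent (A B : Set E) : Prop := ∃ f : E ≃ᵢ E, f '' A = B

theorem lat (A : Set E) (hA : IsClosed A) (φ : ℤ × ℤ → E) (hφ : ∀ u v, φ (u + v) = φ u + φ v)
    (S : ℤ × ℤ → Set E) (hS : ∀ u, S u = (φ u + ·) '' A) (h1 : ∀ p, ∃ u, p ∈ S u)
    (h2 : ∀ u v, u ≠ v → Disjoint (interior (S u)) (interior (S v))) : Isohedral (range S) := by
  have key : ∀ u v, IsometryEquiv.addLeft (φ u) '' S v = S (u + v) := fun u v => by
    simp only [hS, image_image, hφ, IsometryEquiv.addLeft_apply, add_assoc]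
  refine ⟨⟨countable_range _, ?_, eq_univ_of_forall fun p => ?_, ?_⟩, ?_⟩
  · rintro _ ⟨u, rfl⟩
    rw [hS]
    exact (Homeomorph.addLeft (φ u)).isClosedMap _ hA
  · obtain ⟨u, h⟩ := h1 p
    exact ⟨_, ⟨u, rfl⟩, h⟩
  · rintro _ ⟨u, rfl⟩ _ ⟨v, rfl⟩ h
    exact h2 u v fun e => h (by rw [e])
  · rintro _ ⟨u, rfl⟩ _ ⟨v, rfl⟩
    refine ⟨IsometryEquiv.addLeft (φ (v - u)), by rw [key, sub_add_cancel], ?_⟩
    rw [← range_comp]
    exact (congrArg range (funext fun w => key _ w)).trans
      ((Equiv.addLeft (v - u)).surjective.range_comp S)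

def sq (c : E) : Set E := {p | ∀ k, p k ∈ Icc (c k) (c k + 1)}

theorem sq_add (a c : E) : (a + ·) '' sq c = sq (a + c) := by
  ext p
  simp only [image_add_left, mem_preimage, sq, mem_ofPred_eq, mem_Icc, PiLp.add_apply, PiLp.neg_apply]
  exact forall_congr' fun k => by constructor <;> rintro ⟨a, b⟩ <;> constructor <;> linarith

theorem sq_closed (c : E) : IsClosed (sq c) := by
  simp only [sq, ofPred_forall]
  exact isClosed_iInter fun k => isClosed_Icc.preimage (by fun_prop)

theorem sq_int {c p : E} (h : p ∈ interior (sq c)) (k : Fin 2) : p k ∈ Ioo (c k) (c k + 1) := by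
  have := (EuclideanSpace.proj (𝕜 := ℝ) k : E →L[ℝ] ℝ).isOpenMap fun t =>
    ⟨EuclideanSpace.single k t, by simp⟩
  rw [← interior_Icc]
  exact interior_mono (by rintro _ ⟨q, hq, rfl⟩; exact hq k) (this.image_interior_subset _ ⟨p, h, rfl⟩)

def P (i : Fin 2) (β : ℝ) (u : ℤ × ℤ) : E :=
  WithLp.toLp 2 fun k => if k = i then u.1 else u.1 * β + u.2

theorem P_add (i : Fin 2) (β : ℝ) (u v : ℤ × ℤ) : P i β (u + v) = P i β u + P i β v := by
  ext k
  simp only [P, Prod.fst_add, Prod.snd_add, PiLp.add_apply]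
  split_ifs <;> push_cast <;> ring

theorem cover (i : Fin 2) (β : ℝ) (p : E) : ∃ u, p ∈ sq (P i β u) := by
  refine ⟨(⌊p i⌋, ⌊p (i + 1) - ⌊p i⌋ * β⌋), fun k => ?_⟩
  have := Int.floor_le (p (i + 1) - ⌊p i⌋ * β)
  have := Int.lt_floor_add_one (p (i + 1) - ⌊p i⌋ * β)
  simp only [P]
  split_ifs with h
  · exact h ▸ ⟨Int.floor_le _, (Int.lt_floor_add_one _).le⟩
  · rw [show k = i + 1 by omega]
    constructor <;> linarith

theorem uniq {i : Fin 2} {β : ℝ} {u v : ℤ × ℤ} {p : E} (h : p ∈ interior (sq (P i β u)))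
    (h' : p ∈ interior (sq (P i β v))) : u = v := by
  have key : ∀ (a b : ℤ) (s t : ℝ), t ∈ Ioo (s + a) (s + a + 1) → t ∈ Ioo (s + b) (s + b + 1) →
      a = b := fun a b s t x y => by
    have h1 : (a : ℝ) < b + 1 := by linarith [x.1, y.2]
    have h2 : (b : ℝ) < a + 1 := by linarith [y.1, x.2]
    norm_cast at h1 h2
    omega
  have e := key u.1 v.1 0 _ (by simpa [P] using sq_int h i) (by simpa [P] using sq_int h' i)
  have ne : i + 1 ≠ i := by omega
  exact Prod.ext e (key u.2 v.2 (v.1 * β) _ (by simpa [P, ne, e] using sq_int h (i + 1))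
    (by simpa [P, ne] using sq_int h' (i + 1)))

theorem int_union {A B : Set E} (hA : IsClosed A) (hB : IsClosed B) (h : Disjoint A B) {p : E}
    (hp : p ∈ interior (A ∪ B)) : p ∈ interior A ∨ p ∈ interior B := by
  refine (interior_subset hp).imp (fun a => ?_) fun b => ?_
  · refine interior_mono (s := (A ∪ B) ∩ Bᶜ) (by rintro q ⟨x | x, y⟩; exacts [x, absurd x y]) ?_
    rw [interior_inter, hB.isOpen_compl.interior_eq]
    exact ⟨hp, disjoint_left.mp h a⟩
  · refine interior_mono (s := (A ∪ B) ∩ Aᶜ) (by rintro q ⟨x | x, y⟩; exacts [absurd x y, x]) ?_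
    rw [interior_inter, hA.isOpen_compl.interior_eq]
    exact ⟨hp, disjoint_right.mp h b⟩

theorem pair (i : Fin 2) (β : ℝ) (x : ℤ) (c : E) (h : Disjoint (sq c) (sq (c + P i β (x, 1)))) :
    ∃ T, Isohedral T ∧ ∀ C ∈ T, Congruent C (sq c ∪ sq (c + P i β (x, 1))) := by
  let S : ℤ × ℤ → Set E := fun u => sq (P i β (u.1, 2 * u.2)) ∪ sq (P i β (u.1 + x, 2 * u.2 + 1))
  have e : ∀ u : ℤ × ℤ, P i β (u.1 + x, 2 * u.2 + 1) = P i β (u.1, 2 * u.2) + P i β (x, 1) :=
    fun u => P_add i β (u.1, 2 * u.2) (x, 1)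
  refine ⟨range S, lat (sq 0 ∪ sq (P i β (x, 1))) ((sq_closed _).union (sq_closed _))
    (fun u => P i β (u.1, 2 * u.2)) (fun u v => by rw [← P_add]; simp [mul_add]) S
    (fun u => by simp only [S, image_union, sq_add, e, add_zero]) (fun p => ?_) fun u v ne => ?_, ?_⟩
  · obtain ⟨⟨a, b⟩, hp⟩ := cover i β p
    rcases Int.even_or_odd' b with ⟨k, rfl | rfl⟩
    · exact ⟨(a, k), Or.inl hp⟩
    · exact ⟨(a - x, k), Or.inr (by simpa using hp)⟩
  · have d : ∀ u : ℤ × ℤ,
        Disjoint (sq (P i β (u.1, 2 * u.2))) (sq (P i β (u.1 + x, 2 * u.2 + 1))) := fun u => by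
      have := (disjoint_image_iff (add_right_injective (P i β (u.1, 2 * u.2) - c))).mpr h
      rwa [sq_add, sq_add, ← add_assoc, sub_add_cancel, ← e] at this
    refine disjoint_left.mpr fun p a b => ne ?_
    rcases int_union (sq_closed _) (sq_closed _) (d u) a with a | a <;>
      rcases int_union (sq_closed _) (sq_closed _) (d v) b with b | b <;>
      have := Prod.mk.inj (uniq a b) <;> exact Prod.ext (by omega) (by omega)
  · rintro _ ⟨u, rfl⟩
    refine ⟨IsometryEquiv.addLeft (c - P i β (u.1, 2 * u.2)), ?_⟩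
    have := fun d => sq_add (c - P i β (u.1, 2 * u.2)) d
    simp only [S, image_union, IsometryEquiv.addLeft_apply, this, e, ← add_assoc, sub_add_cancel]

theorem result : ∃ T : Set (Set E), Isohedral T ∧
    (∀ A ∈ T, Nonempty (A ≃ₜ Metric.closedBall (0 : E) 1)) ∧
    ∀ A ∈ T, ∀ B ∈ T, Disjoint A B → ∃ T', Isohedral T' ∧ ∀ C ∈ T', Congruent C (A ∪ B) := by
  refine ⟨range fun u => sq (P 0 0 u), lat (sq 0) (sq_closed _) _ (P_add 0 0) _
    (fun u => by rw [sq_add, add_zero]) (cover 0 0)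
    fun u v ne => disjoint_left.mpr fun p a b => ne (uniq a b), ?_, ?_⟩
  · rintro _ ⟨u, rfl⟩
    beta_reduce
    generalize P 0 0 u = c
    have hc : Convex ℝ (sq c) := by
      simp only [sq, ofPred_forall]
      exact convex_iInter fun k => (convex_Icc _ _).linear_preimage
        (EuclideanSpace.proj (𝕜 := ℝ) k : E →L[ℝ] ℝ).toLinearMap
    have hb : Bornology.IsBounded (sq c) := (Metric.isBounded_closedBall (x := c) (r := 2)).subset
      fun p hp => by
        rw [Metric.mem_closedBall, EuclideanSpace.dist_eq, Real.sqrt_le_iff, Fin.sum_univ_two]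
        have := hp 0
        have := hp 1
        simp only [Real.dist_eq, sq_abs, mem_Icc] at *
        exact ⟨by norm_num, by nlinarith⟩
    have hi : (interior (sq c)).Nonempty := by
      refine ⟨c + !₂[1 / 2, 1 / 2], interior_maximal (t := {p : E | ∀ k, p k ∈ Ioo (c k) (c k + 1)})
        (fun p h k => Ioo_subset_Icc_self (h k)) ?_ fun k => ?_⟩
      · simp only [ofPred_forall]
        exact isOpen_iInter_of_finite fun k => isOpen_Ioo.preimage (by fun_prop)
      · fin_cases k <;> simp <;> norm_num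
    obtain ⟨f, -, h, -⟩ := exists_homeomorph_image_interior_closure_frontier_eq_unitBall hc hi hb
    rw [(sq_closed c).closure_eq] at h
    exact ⟨h ▸ f.image _⟩
  · rintro _ ⟨u, rfl⟩ _ ⟨v, rfl⟩ h
    by_cases e : v.1 - u.1 = 0
    · have e' : ((v.2 - u.2 : ℤ) : ℝ) ≠ 0 := by
        norm_cast
        intro q
        rw [show v = u from Prod.ext (by omega) (by omega), disjoint_self] at h
        exact (h ▸ fun k => by simp : P 0 0 u ∈ (⊥ : Set E))
      have : P 0 0 v = P 0 0 u + P 1 (-1 / (v.2 - u.2 : ℤ)) (v.2 - u.2, 1) := by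
        ext k
        have : (v.1 : ℝ) = u.1 := by norm_cast; omega
        fin_cases k
        · simp only [P, PiLp.add_apply]
          push_cast at e'
          simp [this, mul_div_cancel₀ _ e']
        · simp [P]
      simp only [this] at h ⊢
      exact pair _ _ _ _ h
    · have e' : ((v.1 - u.1 : ℤ) : ℝ) ≠ 0 := by exact_mod_cast e
      have : P 0 0 v = P 0 0 u + P 0 ((v.2 - u.2 - 1) / (v.1 - u.1 : ℤ)) (v.1 - u.1, 1) := by
        ext k
        fin_cases k
        · simp [P]
        · simp only [P, PiLp.add_apply]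
          push_cast at e'
          simp [mul_div_cancel₀ _ e']
      simp only [this] at h ⊢
      exact pair _ _ _ _ h

end Pool.Agent.Results.MP_5a5b3b_co.Yes
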